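import Mathlib
import Pool.Agent.Lib.helper6.Cross

set_option autoImplicit false

namespace Pool.Agent.Results.MP_8a822d_gt.OnePoint

open Set Topology Filter TopologicalSpace Pool.Agent.Lib.helper6.Cross

/-- Baire-one functions -/
def Baire1 {M : Type} [TopologicalSpace M] (f : M → ℝ) : Prop :=
  ∃ g : ℕ → M → ℝ, (∀ n, Continuous (g n)) ∧ ∀ x, Tendsto (fun n => g n x) atTop (𝓝 (f x))

theorem result : ∃ K : Set (ℝ → ℝ), IsCompact K ∧ (∀ f ∈ K, Baire1 f) ∧
    ∀ (X Y : Type) [TopologicalSpace X] [TopologicalSpace Y] [PolishSpace X] [PolishSpace Y],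
      (¬ ∃ e : K → S X Y, @IsEmbedding _ _ _ (cro X Y) e) ∧
      (¬ ∃ e : K → S X Y, @IsEmbedding _ _ _ (cru X Y) e) := by
  classical
  have h2 : Tendsto (fun i : ℝ => (Pi.single i 1 : ℝ → ℝ)) cofinite (𝓝 0) := by
    rw [tendsto_pi_nhds]
    refine fun j => tendsto_const_nhds.congr' ?_
    filter_upwards [eventually_cofinite_ne j] with i hi
    simp [hi.symm]
  have hK := h2.isCompact_insert_range_of_cofinite
  have := isCompact_iff_compactSpace.1 hK
  have nm : ¬ MetrizableSpace ↥(insert 0 (range fun i : ℝ => (Pi.single i 1 : ℝ → ℝ))) := by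
    intro H
    have h3 := (tendsto_subtype_rng (f := fun i : ℝ => (⟨_, Or.inr ⟨i, rfl⟩⟩ :
      ↥(insert 0 (range fun i : ℝ => (Pi.single i 1 : ℝ → ℝ))))) (x := ⟨0, Or.inl rfl⟩)).2 h2
    have h4 := h3.countable_compl_preimage_ker
    rw [ker_nhds] at h4
    refine Cardinal.not_countable_real (h4.mono fun i _ => mem_compl fun hi => ?_)
    simpa using congrFun (congrArg Subtype.val hi) i
  refine ⟨_, hK, ?_, fun X Y _ _ _ _ => ⟨?_, ?_⟩⟩
  · rintro _ (rfl | ⟨i, rfl⟩)
    · exact ⟨fun _ => 0, fun _ => continuous_zero, fun _ => tendsto_const_nhds⟩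
    · refine ⟨fun n x => (1 / (1 + (x - i) ^ 2)) ^ n, fun n => ?_, fun x => ?_⟩
      · exact (continuous_const.div (by fun_prop) fun x => by positivity).pow n
      · by_cases h : x = i
        · simp [h]
        · simp only [Pi.single_eq_of_ne h]
          have := sq_pos_of_ne_zero (sub_ne_zero.2 h)
          exact tendsto_pow_atTop_nhds_zero_of_lt_one (by positivity)
            ((div_lt_one (by positivity)).2 (by linarith))
  · let _ := cro X Y
    rintro ⟨e, he⟩
    exact nm (met e he.injective fun p => (ev_cro p).comp he.continuous)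
  · let _ := cru X Y
    rintro ⟨e, he⟩
    exact nm (met e he.injective fun p => (ev_cru p).comp he.continuous)

end Pool.Agent.Results.MP_8a822d_gt.OnePoint
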